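import Mathlib

/-!
# Symmetric groups of infinite sets acting on compact metric spaces

Generalisation of the file `Pool.Agent.Results.MP_290264_an.NonAmenable` of the starting library,
which treats the set of real numbers, to all infinite sets with more than continuum many subsets.
-/

set_option autoImplicit false

namespace Pool.Agent.Y919.REC

open MeasureTheory Set Function

universe u v w

/-! ### Definitions -/

/-- The space of bounded real functions on `G`. -/
def bddFun (G : Type u) : Submodule ℝ (G → ℝ) where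
  carrier := {f | ∃ C : ℝ, ∀ g, |f g| ≤ C}
  add_mem' := by
    rintro a b ⟨C, hC⟩ ⟨D, hD⟩
    exact ⟨C + D, fun g => (abs_add_le _ _).trans (add_le_add (hC g) (hD g))⟩
  zero_mem' := ⟨0, fun g => by simp⟩
  smul_mem' := by
    rintro c a ⟨C, hC⟩
    refine ⟨|c| * C, fun g => ?_⟩
    rw [Pi.smul_apply, smul_eq_mul, abs_mul]
    exact mul_le_mul_of_nonneg_left (hC g) (abs_nonneg c)

/-- `m` is a left-invariant mean on the bounded functions on `G`. -/
def IsLeftInvariantMean (G : Type u) [Group G] (m : bddFun G →ₗ[ℝ] ℝ) : Prop :=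
  (∀ f : bddFun G, (∀ g, 0 ≤ f.1 g) → 0 ≤ m f) ∧
  (∀ f : bddFun G, (∀ g, f.1 g = 1) → m f = 1) ∧
  ∀ (h : G) (f f' : bddFun G), (∀ g, f'.1 g = f.1 (h * g)) → m f' = m f

/-- The discrete group `G` is amenable. -/
def IsAmenable (G : Type u) [Group G] : Prop :=
  ∃ m : bddFun G →ₗ[ℝ] ℝ, IsLeftInvariantMean G m

/-- `R` is a set of topological recurrence: for every minimal action of `G` by homeomorphisms on a
compact metric space `X` and every non-empty open `U`, some `g ∈ R`, `g ≠ 1`, has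
`U ∩ {x | g • x ∈ U} ≠ ∅`. -/
def TopologicalRecurrence (G : Type u) [Group G] (R : Set G) : Prop :=
  ∀ (X : Type v) [MetricSpace X] [CompactSpace X] [MulAction G X],
    (∀ g : G, Continuous fun x : X => g • x) →
    (∀ x : X, Dense (MulAction.orbit G x)) →
    ∀ U : Set X, IsOpen U → U.Nonempty → ∃ g ∈ R, g ≠ 1 ∧ (U ∩ {x | g • x ∈ U}).Nonempty

/-- `R` is a set of measurable recurrence: for every measure-preserving action of `G` on a
probability space and every measurable `A` of positive measure, some `g ∈ R`, `g ≠ 1`, has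
`μ (A ∩ {x | g • x ∈ A}) > 0`. -/
def MeasurableRecurrence (G : Type u) [Group G] (R : Set G) : Prop :=
  ∀ (X : Type v) [MeasurableSpace X] (μ : Measure X) [IsProbabilityMeasure μ] [MulAction G X],
    (∀ g : G, MeasurePreserving (fun x : X => g • x) μ μ) →
    ∀ A : Set X, MeasurableSet A → 0 < μ A → ∃ g ∈ R, g ≠ 1 ∧ 0 < μ (A ∩ {x | g • x ∈ A})

/-! ### Blocks -/

section Blocks

open Equiv Cardinal

variable {Ω : Type}

/-- The space of one copy of `Ω` and of copies of `Ω` indexed by `Ω × ℤ`. -/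
abbrev Q (Ω : Type) : Type := Ω ⊕ ((Ω × ℤ) × Ω)

open Classical in
/-- `g'` on the blocks in `S`. -/
noncomputable def blk (g' : Perm Ω) (S : Set (Ω × ℤ)) : Perm (Q Ω) :=
  Perm.sumCongr 1 (Equiv.prodShear (Equiv.refl _) (fun p => if p ∈ S then g' else 1))

open Classical in
/-- shift of the blocks in column `d` -/
noncomputable def shiftIdx (d : Ω) : Perm (Ω × ℤ) :=
  Equiv.prodShear (Equiv.refl _) (fun i => if i = d then Equiv.addRight (1 : ℤ) else 1)

/-- shift of the blocks in column `d` -/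
noncomputable def shift (d : Ω) : Perm (Q Ω) :=
  Perm.sumCongr 1 (Equiv.prodCongr (shiftIdx d) (Equiv.refl _))

open Classical in
/-- exchange of the first copy with the block `p` -/
noncomputable def swapFun (p : Ω × ℤ) : Q Ω → Q Ω
  | Sum.inl x => Sum.inr (p, x)
  | Sum.inr (q, x) => if q = p then Sum.inl x else Sum.inr (q, x)

lemma swapFun_invol (p : Ω × ℤ) : Function.Involutive (swapFun p) := by
  rintro (x | ⟨q, x⟩)
  · simp [swapFun]
  · by_cases h : q = p
    · subst h; simp [swapFun]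
    · simp [swapFun, h]

/-- exchange of the first copy with the block `p` -/
noncomputable def swapPerm (p : Ω × ℤ) : Perm (Q Ω) := (swapFun_invol p).toPerm

lemma swap_conj (g' : Perm Ω) (p : Ω × ℤ) :
    swapPerm p * Perm.sumCongr g' 1 * (swapPerm p)⁻¹ = blk g' {p} := by
  rw [mul_inv_eq_iff_eq_mul]
  ext1 z
  rcases z with x | ⟨q, x⟩
  · simp [swapPerm, swapFun, blk, Equiv.prodShear]
  · by_cases h : q = p
    · subst h; simp [swapPerm, swapFun, blk, Equiv.prodShear]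
    · simp [swapPerm, swapFun, blk, Equiv.prodShear, h]

lemma blk_inl (g' : Perm Ω) (S : Set (Ω × ℤ)) (x : Ω) : blk g' S (Sum.inl x) = Sum.inl x := by
  simp [blk]

lemma blk_inr_mem (g' : Perm Ω) {S : Set (Ω × ℤ)} {q : Ω × ℤ} (h : q ∈ S) (x : Ω) :
    blk g' S (Sum.inr (q, x)) = Sum.inr (q, g' x) := by
  simp [blk, Equiv.prodShear, h]

lemma blk_inr_notMem (g' : Perm Ω) {S : Set (Ω × ℤ)} {q : Ω × ℤ} (h : q ∉ S) (x : Ω) :
    blk g' S (Sum.inr (q, x)) = Sum.inr (q, x) := by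
  simp [blk, Equiv.prodShear, h]

lemma shift_inl (d x : Ω) : shift d (Sum.inl x) = Sum.inl x := by
  simp [shift]

lemma shift_inr (d : Ω) (q : Ω × ℤ) (x : Ω) :
    shift d (Sum.inr (q, x)) = Sum.inr (shiftIdx d q, x) := by
  simp [shift]

lemma shift_conj (g' : Perm Ω) (S T : Set (Ω × ℤ)) (d : Ω) (h : ∀ q, q ∈ S ↔ shiftIdx d q ∈ T) :
    shift d * blk g' S * (shift d)⁻¹ = blk g' T := by
  rw [mul_inv_eq_iff_eq_mul]
  ext1 z
  rcases z with x | ⟨q, x⟩
  · rw [Perm.mul_apply, Perm.mul_apply, blk_inl, shift_inl, blk_inl]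
  · rw [Perm.mul_apply, Perm.mul_apply, shift_inr]
    by_cases hq : q ∈ S
    · rw [blk_inr_mem g' hq, shift_inr, blk_inr_mem g' ((h q).1 hq)]
    · rw [blk_inr_notMem g' hq, shift_inr, blk_inr_notMem g' (fun h' => hq ((h q).2 h'))]

lemma blk_insert (g' : Perm Ω) (S : Set (Ω × ℤ)) (p : Ω × ℤ) (hp : p ∉ S) :
    blk g' (insert p S) = blk g' {p} * blk g' S := by
  ext1 z
  rcases z with x | ⟨q, x⟩
  · rw [Perm.mul_apply, blk_inl, blk_inl, blk_inl]
  · rw [Perm.mul_apply]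
    by_cases hq : q = p
    · subst hq
      rw [blk_inr_notMem g' hp, blk_inr_mem g' (Set.mem_insert _ _),
        blk_inr_mem g' (Set.mem_singleton q)]
    · by_cases hS : q ∈ S
      · rw [blk_inr_mem g' hS, blk_inr_mem g' (Set.mem_insert_of_mem _ hS),
          blk_inr_notMem g' (by simpa using hq)]
      · rw [blk_inr_notMem g' hS, blk_inr_notMem g' (by simp [hq, hS]),
          blk_inr_notMem g' (by simpa using hq)]

lemma fin_equiv (hi : ℵ₀ ≤ #Ω) (n : ℕ) (hn : n ≠ 0) : Nonempty (Ω ≃ Fin n × Ω) := by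
  rw [← Cardinal.eq, Cardinal.mk_prod, Cardinal.lift_id, Cardinal.lift_id, Cardinal.mk_fin,
    Cardinal.mul_eq_right hi ((Cardinal.natCast_lt_aleph0 (n := n)).le.trans hi) (by exact_mod_cast hn)]

/-- The blocks `(i, n)` with `i ∈ J` and `n ≥ 0`. -/
def colUp (J : Set Ω) : Set (Ω × ℤ) := {p | p.1 ∈ J ∧ 0 ≤ p.2}

/-- The blocks `(i, n)` with `i ∈ J` and `n ≥ 0`, `n ≥ 1` if `i = d`. -/
def colUp' (J : Set Ω) (d : Ω) : Set (Ω × ℤ) := {p | p.1 ∈ J ∧ 0 ≤ p.2 ∧ (p.1 = d → 1 ≤ p.2)}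

lemma mem_colUp {J : Set Ω} {i : Ω} {n : ℤ} : (i, n) ∈ colUp J ↔ i ∈ J ∧ 0 ≤ n := Iff.rfl

lemma mem_colUp' {J : Set Ω} {d i : Ω} {n : ℤ} :
    (i, n) ∈ colUp' J d ↔ i ∈ J ∧ 0 ≤ n ∧ (i = d → 1 ≤ n) := Iff.rfl

lemma shiftIdx_self (d : Ω) (n : ℤ) : shiftIdx d (d, n) = (d, n + 1) := by
  simp [shiftIdx, Equiv.prodShear]

lemma shiftIdx_other {d i : Ω} (h : i ≠ d) (n : ℤ) : shiftIdx d (i, n) = (i, n) := by
  simp [shiftIdx, Equiv.prodShear, h]

lemma shift_colUp_mem (g' : Perm Ω) {J : Set Ω} {d : Ω} (hd : d ∈ J) :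
    blk g' (colUp J) = blk g' {(d, 0)} * (shift d * blk g' (colUp J) * (shift d)⁻¹) := by
  rw [shift_conj g' (colUp J) (colUp' J d) d, ← blk_insert]
  · congr 1
    ext ⟨i, n⟩
    rw [Set.mem_insert_iff, mem_colUp, mem_colUp', Prod.mk.injEq]
    constructor
    · rintro ⟨h1, h2⟩
      by_cases h3 : i = d
      · by_cases h4 : n = 0
        · exact Or.inl ⟨h3, h4⟩
        · exact Or.inr ⟨h1, h2, fun _ => by omega⟩
      · exact Or.inr ⟨h1, h2, fun h => absurd h h3⟩
    · rintro (⟨rfl, rfl⟩ | ⟨h1, h2, -⟩)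
      · exact ⟨hd, le_refl _⟩
      · exact ⟨h1, h2⟩
  · rw [mem_colUp']
    rintro ⟨-, -, h⟩
    exact absurd (h rfl) (by norm_num)
  · rintro ⟨i, n⟩
    by_cases h3 : i = d
    · rw [h3, shiftIdx_self, mem_colUp, mem_colUp']
      constructor
      · rintro ⟨h1, h2⟩
        exact ⟨h1, by omega, fun _ => by omega⟩
      · rintro ⟨h1, h2, h4⟩
        have := h4 rfl
        exact ⟨h1, by omega⟩
    · rw [shiftIdx_other h3, mem_colUp, mem_colUp']
      constructor
      · rintro ⟨h1, h2⟩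
        exact ⟨h1, h2, fun h => absurd h h3⟩
      · rintro ⟨h1, h2, -⟩
        exact ⟨h1, h2⟩

lemma shift_colUp_notMem (g' : Perm Ω) {J : Set Ω} {d : Ω} (hd : d ∉ J) :
    shift d * blk g' (colUp J) * (shift d)⁻¹ = blk g' (colUp J) := by
  refine shift_conj g' (colUp J) (colUp J) d ?_
  rintro ⟨i, n⟩
  by_cases h3 : i = d
  · subst h3
    rw [shiftIdx_self, mem_colUp, mem_colUp]
    simp [hd]
  · rw [shiftIdx_other h3]

/-- If two different unions of columns act in the same way, the first copy acts trivially. -/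
lemma map_eq_one_of_eq {H : Type*} [Group H] (ρ : Perm (Q Ω) →* H) (g' : Perm Ω) {J J' : Set Ω}
    {d : Ω} (hd : d ∈ J) (hd' : d ∉ J') (h : ρ (blk g' (colUp J)) = ρ (blk g' (colUp J'))) :
    ρ (Perm.sumCongr g' 1) = 1 := by
  have h1 : ρ (blk g' {(d, 0)}) = 1 := by
    have e1 := congrArg ρ (shift_colUp_mem g' hd)
    have e2 := congrArg ρ (shift_colUp_notMem g' hd')
    simp only [map_mul] at e1 e2
    rw [h, e2] at e1
    exact (mul_eq_right.1 e1.symm)
  have h2 := congrArg ρ (swap_conj g' (d, 0))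
  rw [h1, map_mul, map_mul, map_inv, mul_inv_eq_one] at h2
  exact mul_eq_left.1 h2

/-- Continuum many columns: two unions of columns act in the same way. -/
lemma exists_same (hc : 𝔠 < 2 ^ #Ω) {X : Type v} [MetricSpace X] [CompactSpace X]
    (F : Set Ω → X → X) (hF : ∀ J, Continuous (F J)) : ∃ J J' : Set Ω, J ≠ J' ∧ F J = F J' := by
  have hne : Nonempty Ω := by
    rw [← Cardinal.mk_ne_zero_iff]
    intro h0
    rw [h0, Cardinal.power_zero] at hc
    exact absurd (hc.trans Cardinal.one_lt_aleph0) (not_lt.2 Cardinal.aleph0_le_continuum)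
  rcases isEmpty_or_nonempty X with hX | hX
  · exact ⟨∅, Set.univ, Set.empty_ne_univ, Subsingleton.elim _ _⟩
  let D := TopologicalSpace.denseSeq X
  have hD : DenseRange D := TopologicalSpace.denseRange_denseSeq X
  let Φ : Set Ω → (ℕ → ℕ → ℝ) := fun J n m => dist (F J (D n)) (D m)
  have hΦ : ¬ Function.Injective Φ := by
    intro h
    have h1 := Cardinal.mk_le_of_injective h
    have h2 : #(ℕ → ℕ → ℝ) = 𝔠 := by simp [Cardinal.mk_real]
    rw [h2, Cardinal.mk_set] at h1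
    exact absurd h1 (not_le.2 hc)
  simp only [Function.Injective, not_forall] at hΦ
  obtain ⟨J, J', h, hne'⟩ := hΦ
  refine ⟨J, J', hne', ?_⟩
  refine hD.equalizer (hF J) (hF J') (funext fun n => ?_)
  have h3 : (fun y => dist (F J (D n)) y) = fun y => dist (F J' (D n)) y :=
    hD.equalizer (continuous_const.dist continuous_id) (continuous_const.dist continuous_id)
      (funext fun m => congrFun (congrFun h n) m)
  have h4 := congrFun h3 (F J' (D n))
  simp only [dist_self] at h4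
  exact dist_eq_zero.1 h4

lemma block_trivial (hc : 𝔠 < 2 ^ #Ω) {X : Type v} [MetricSpace X] [CompactSpace X]
    (ρ : Perm (Q Ω) →* Perm X) (hρ : ∀ q, Continuous (ρ q)) (g' : Perm Ω) :
    ρ (Perm.sumCongr g' 1) = 1 := by
  obtain ⟨J, J', hne, h⟩ := exists_same hc (fun J => ρ (blk g' (colUp J))) (fun J => hρ _)
  have h' : ρ (blk g' (colUp J)) = ρ (blk g' (colUp J')) := DFunLike.coe_injective h
  by_cases hs : J ⊆ J'
  · obtain ⟨d, hd, hd'⟩ := Set.not_subset.1 (fun h2 => hne (Set.Subset.antisymm hs h2))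
    exact map_eq_one_of_eq ρ g' hd hd' h'.symm
  · obtain ⟨d, hd, hd'⟩ := Set.not_subset.1 hs
    exact map_eq_one_of_eq ρ g' hd hd' h'

lemma exists_split (hi' : ℵ₀ ≤ #Ω) (g : Perm Ω) (i : Ω → Ω) (hi : Function.Injective i)
    (h : ∀ x, g (i x) = i x) : ∃ e : Ω ≃ Ω ⊕ Ω, ∀ x, g (e.symm (Sum.inr x)) = e.symm (Sum.inr x) := by
  obtain ⟨r⟩ : Nonempty (Ω ⊕ Ω ≃ Ω) := by
    rw [← Cardinal.eq, Cardinal.mk_sum, Cardinal.lift_id, Cardinal.add_eq_self hi']
  let j : Ω → Ω := fun x => i (r (Sum.inr x))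
  have hj : Function.Injective j := fun x y hxy => Sum.inr_injective (r.injective (hi hxy))
  have hc : #((Set.range j)ᶜ : Set Ω) = #Ω := by
    refine le_antisymm (Cardinal.mk_set_le _) ?_
    refine Cardinal.mk_le_of_injective (f := fun x => (⟨i (r (Sum.inl x)), ?_⟩ : ((Set.range j)ᶜ : Set Ω))) ?_
    · rintro ⟨y, hy⟩
      exact absurd (r.injective (hi hy)) (by simp)
    · intro x y hxy
      exact Sum.inl_injective (r.injective (hi (congrArg Subtype.val hxy)))
  obtain ⟨eC⟩ := Cardinal.eq.1 hc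
  classical
  let e' : Ω ⊕ Ω ≃ Ω := (Equiv.sumComm Ω Ω).trans
    ((Equiv.sumCongr (Equiv.ofInjective j hj) eC.symm).trans (Equiv.Set.sumCompl (Set.range j)))
  refine ⟨e'.symm, fun x => ?_⟩
  have : e'.symm.symm (Sum.inr x) = j x := by simp [e']
  rw [this]
  exact h _

lemma exists_sumCongr (g : Perm (Ω ⊕ Ω)) (h : ∀ x, g (Sum.inr x) = Sum.inr x) :
    ∃ g' : Perm Ω, g = Perm.sumCongr g' 1 := by
  have hinl : ∀ x, ∃ y, g (Sum.inl x) = Sum.inl y := by
    intro x
    rcases hx : g (Sum.inl x) with y | y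
    · exact ⟨y, rfl⟩
    · rw [← h y] at hx
      exact absurd (g.injective hx) (by simp)
  have hinl' : ∀ x, ∃ y, g⁻¹ (Sum.inl x) = Sum.inl y := by
    intro x
    rcases hx : g⁻¹ (Sum.inl x) with y | y
    · exact ⟨y, rfl⟩
    · rw [Perm.inv_eq_iff_eq, h y] at hx
      exact absurd hx (by simp)
  choose a ha using hinl
  choose b hb using hinl'
  refine ⟨⟨a, b, ?_, ?_⟩, ?_⟩
  · intro x
    have := hb (a x)
    rw [← ha x, Perm.inv_def, Equiv.symm_apply_apply] at this
    exact (Sum.inl_injective this).symm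
  · intro x
    have := ha (b x)
    rw [← hb x, Perm.inv_def, Equiv.apply_symm_apply] at this
    exact (Sum.inl_injective this).symm
  · ext1 z
    rcases z with x | x
    · rw [ha]; rfl
    · rw [h]; rfl

/-- A permutation fixing many points acts trivially. -/
lemma trivial_of_fixes (hi' : ℵ₀ ≤ #Ω) (hc : 𝔠 < 2 ^ #Ω) {X : Type v} [MetricSpace X] [CompactSpace X]
    (ρ : Perm Ω →* Perm X) (hρ : ∀ q, Continuous (ρ q)) (g : Perm Ω) (i : Ω → Ω)
    (hi : Function.Injective i) (h : ∀ x, g (i x) = i x) : ρ g = 1 := by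
  obtain ⟨e, he⟩ := exists_split hi' g i hi h
  obtain ⟨g', hg'⟩ := exists_sumCongr (e.permCongrHom g) (fun x => by
    simp [Equiv.permCongrHom, he])
  obtain ⟨f⟩ : Nonempty (Ω ≃ (Ω × ℤ) × Ω) := by
    rw [← Cardinal.eq]
    simp only [Cardinal.mk_prod, Cardinal.lift_id, Cardinal.mk_int]
    rw [Cardinal.mul_eq_left hi' hi' Cardinal.aleph0_ne_zero, Cardinal.mul_eq_self hi']
  let E : Ω ≃ Q Ω := e.trans (Equiv.sumCongr (Equiv.refl Ω) f)
  have h1 := block_trivial hc (ρ.comp (E.permCongrHom.symm : Perm (Q Ω) →* Perm Ω))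
    (fun q => hρ _) g'
  have h2 : E.permCongrHom g = Perm.sumCongr g' 1 := by
    have h3 : E.permCongrHom g = (Equiv.sumCongr (Equiv.refl Ω) f).permCongrHom
        (e.permCongrHom g) := rfl
    rw [h3, hg']
    ext1 z
    rcases z with x | x
    · simp [Equiv.permCongrHom]
    · simp [Equiv.permCongrHom]
  rw [← h2] at h1
  change ρ (E.permCongrHom.symm (E.permCongrHom g)) = 1 at h1
  rwa [MulEquiv.symm_apply_apply] at h1

/-- Every permutation is a product of two permutations with many fixed points. -/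
lemma exists_factor (hinf : ℵ₀ ≤ #Ω) (h : Perm Ω) :
    ∃ (u : Perm Ω) (i j : Ω → Ω), Function.Injective i ∧ Function.Injective j ∧
      (∀ x, u (i x) = i x) ∧ ∀ x, (h * u⁻¹) (j x) = j x := by
  classical
  obtain ⟨e⟩ : Nonempty (Ω ≃ Fin 4 × Ω) := fin_equiv hinf 4 (by norm_num)
  obtain ⟨⟨a, b⟩, hab⟩ := Cardinal.infinite_pigeonhole
    (fun x : Ω => ((e x).1, (e (h x)).1)) hinf
    (lt_of_lt_of_le (Cardinal.lt_aleph0_of_finite _)
      (Ordinal.aleph0_le_cof_iff.2 (Ordinal.one_lt_cof_iff.2 (Cardinal.isSuccLimit_ord hinf))))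
  have hfin : ∀ a b : Fin 4, ∃ k l : Fin 4, k ≠ l ∧ k ≠ a ∧ k ≠ b ∧ l ≠ a ∧ l ≠ b := by decide
  obtain ⟨k, l, hkl, hka, hkb, hla, hlb⟩ := hfin a b
  have hAmem : ∀ x : Ω, x ∈ (fun x : Ω => ((e x).1, (e (h x)).1)) ⁻¹' {(a, b)} ↔
      (e x).1 = a ∧ (e (h x)).1 = b := by
    intro x
    rw [Set.mem_preimage, Set.mem_singleton_iff, Prod.mk.injEq]
  obtain ⟨ψ⟩ := Cardinal.eq.1 hab
  let P : Ω → Prop := fun x => ((e x).1 = a ∧ (e (h x)).1 = b) ∨ (e x).1 = l
  let P' : Ω → Prop := fun y => ((e (h⁻¹ y)).1 = a ∧ (e y).1 = b) ∨ (e y).1 = l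
  have hPk : #{x // ¬ P x} = #Ω := by
    refine le_antisymm (Cardinal.mk_subtype_le _) ?_
    refine Cardinal.mk_le_of_injective (f := fun x => (⟨e.symm (k, x), ?_⟩ : {x // ¬ P x})) ?_
    · simp only [P, Equiv.apply_symm_apply]
      rintro (⟨h1, -⟩ | h1)
      · exact hka h1
      · exact hkl h1
    · intro x y hxy
      have := e.symm.injective (congrArg Subtype.val hxy)
      exact (Prod.mk.inj this).2
  have hPk' : #{x // ¬ P' x} = #Ω := by
    refine le_antisymm (Cardinal.mk_subtype_le _) ?_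
    refine Cardinal.mk_le_of_injective (f := fun x => (⟨e.symm (k, x), ?_⟩ : {x // ¬ P' x})) ?_
    · simp only [P', Equiv.apply_symm_apply]
      rintro (⟨-, h1⟩ | h1)
      · exact hkb h1
      · exact hkl h1
    · intro x y hxy
      have := e.symm.injective (congrArg Subtype.val hxy)
      exact (Prod.mk.inj this).2
  obtain ⟨E2⟩ : Nonempty ({x // ¬ P x} ≃ {x // ¬ P' x}) := by
    rw [← Cardinal.eq, hPk, hPk']
  let F1 : {x // P x} → {x // P' x} := fun x =>
    if hx : (e x.1).1 = a ∧ (e (h x.1)).1 = b then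
      ⟨h x.1, Or.inl ⟨by rw [Perm.inv_def, Equiv.symm_apply_apply]; exact hx.1, hx.2⟩⟩
    else ⟨x.1, Or.inr (x.2.resolve_left hx)⟩
  have hF1 : Function.Bijective F1 := by
    constructor
    · rintro ⟨x, hx⟩ ⟨y, hy⟩ hxy
      by_cases h1 : (e x).1 = a ∧ (e (h x)).1 = b
      · by_cases h2 : (e y).1 = a ∧ (e (h y)).1 = b
        · simp only [F1, h1, h2, and_self, dif_pos, Subtype.mk.injEq] at hxy
          exact Subtype.ext (h.injective hxy)
        · simp only [F1, h1, h2, and_self, dif_pos, dif_neg, not_false_iff, Subtype.mk.injEq] at hxy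
          have h3 := hy.resolve_left h2
          rw [← hxy, h1.2] at h3
          exact absurd h3.symm hlb
      · by_cases h2 : (e y).1 = a ∧ (e (h y)).1 = b
        · simp only [F1, h1, h2, and_self, dif_pos, dif_neg, not_false_iff, Subtype.mk.injEq] at hxy
          have h3 := hx.resolve_left h1
          rw [hxy, h2.2] at h3
          exact absurd h3.symm hlb
        · simp only [F1, h1, h2, dif_neg, not_false_iff, Subtype.mk.injEq] at hxy
          exact Subtype.ext hxy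
    · rintro ⟨y, hy⟩
      by_cases h1 : (e (h⁻¹ y)).1 = a ∧ (e y).1 = b
      · have h2 : (e (h⁻¹ y)).1 = a ∧ (e (h (h⁻¹ y))).1 = b := by
          rw [Perm.inv_def, Equiv.apply_symm_apply]; exact h1
        refine ⟨⟨h⁻¹ y, Or.inl h2⟩, ?_⟩
        simp only [F1, h2, and_self, dif_pos, Subtype.mk.injEq]
        rw [Perm.inv_def, Equiv.apply_symm_apply]
      · have h3 := hy.resolve_left h1
        have h2 : ¬ ((e y).1 = a ∧ (e (h y)).1 = b) := by
          rintro ⟨h4, -⟩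
          exact hla (h3.symm.trans h4)
        refine ⟨⟨y, Or.inr h3⟩, ?_⟩
        simp only [F1, h2, dif_neg, not_false_iff]
  let E1 : {x // P x} ≃ {x // P' x} := Equiv.ofBijective F1 hF1
  let u : Perm Ω := Equiv.subtypeCongr E1 E2
  have hu : ∀ x : Ω, P x → ((e x).1 = a ∧ (e (h x)).1 = b → u x = h x) ∧
      (¬ ((e x).1 = a ∧ (e (h x)).1 = b) → u x = x) := by
    intro x hx
    have h1 : u x = (E1 ⟨x, hx⟩ : Ω) := by
      simp [u, Equiv.subtypeCongr, hx]
    rw [h1]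
    constructor
    · intro h2
      simp [E1, F1, h2]
    · intro h2
      simp only [E1, F1, Equiv.ofBijective_apply, dif_neg h2]
  refine ⟨u, fun x => e.symm (l, x), fun x => h (ψ.symm x), ?_, ?_, ?_, ?_⟩
  · intro x y hxy
    exact (Prod.mk.inj (e.symm.injective hxy)).2
  · intro x y hxy
    exact ψ.symm.injective (Subtype.ext (h.injective hxy))
  · intro x
    have h1 : (e (e.symm (l, x))).1 = l := by rw [Equiv.apply_symm_apply]
    refine (hu _ (Or.inr h1)).2 ?_
    rintro ⟨h2, -⟩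
    exact hla (h1.symm.trans h2)
  · intro x
    have h1 := (hAmem _).1 (ψ.symm x).2
    have h2 := (hu _ (Or.inl h1)).1 h1
    change h (u⁻¹ (h (ψ.symm x))) = h (ψ.symm x)
    rw [← h2, Perm.inv_def, Equiv.symm_apply_apply, h2]

/-- Every action on a compact metric space is trivial. -/
theorem action_trivial (hi : ℵ₀ ≤ #Ω) (hc : 𝔠 < 2 ^ #Ω) {X : Type v} [MetricSpace X] [CompactSpace X]
    (ρ : Perm Ω →* Perm X) (hρ : ∀ q, Continuous (ρ q)) (h : Perm Ω) : ρ h = 1 := by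
  obtain ⟨u, i, j, hi', hj, h1, h2⟩ := exists_factor hi h
  have h3 := trivial_of_fixes hi hc ρ hρ u i hi' h1
  have h4 := trivial_of_fixes hi hc ρ hρ (h * u⁻¹) j hj h2
  rw [map_mul, map_inv, h3, inv_one, mul_one] at h4
  exact h4

end Blocks

/-! ### Non-amenability -/

section NonAmenability

open Equiv Cardinal

variable {Ω : Type}

/-- indicator function of `{g | g x₀ ∈ B}` -/
noncomputable def ind (x₀ : Ω) (B : Set Ω) : bddFun (Perm Ω) :=
  ⟨fun g => B.indicator (fun _ => (1 : ℝ)) (g x₀), 1, fun g => by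
    by_cases h : g x₀ ∈ B
    · simp [h]
    · simp [h]⟩

lemma ind_mem {x₀ : Ω} {B : Set Ω} {g : Perm Ω} (h : g x₀ ∈ B) : (ind x₀ B).1 g = 1 := by
  simp [ind, h]

lemma ind_notMem {x₀ : Ω} {B : Set Ω} {g : Perm Ω} (h : g x₀ ∉ B) : (ind x₀ B).1 g = 0 := by
  simp [ind, h]

lemma ind_union (x₀ : Ω) {B C : Set Ω} (h : Disjoint B C) :
    ind x₀ (B ∪ C) = ind x₀ B + ind x₀ C := by
  apply Subtype.ext
  funext g
  change (ind x₀ (B ∪ C)).1 g = (ind x₀ B).1 g + (ind x₀ C).1 g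
  by_cases h1 : g x₀ ∈ B
  · have h2 : g x₀ ∉ C := Set.disjoint_left.1 h h1
    rw [ind_mem h1, ind_notMem h2, ind_mem (Set.mem_union_left C h1), add_zero]
  · by_cases h2 : g x₀ ∈ C
    · rw [ind_notMem h1, ind_mem h2, ind_mem (Set.mem_union_right B h2), zero_add]
    · rw [ind_notMem h1, ind_notMem h2,
        ind_notMem (fun h3 => ((Set.mem_union _ _ _).1 h3).elim h1 h2), zero_add]

lemma mean_eq {m : bddFun (Perm Ω) →ₗ[ℝ] ℝ} (hm : IsLeftInvariantMean (Perm Ω) m) (x₀ : Ω)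
    (S T : Set Ω) (h1 : #S = #T) (h2 : #(Sᶜ : Set Ω) = #(Tᶜ : Set Ω)) :
    m (ind x₀ S) = m (ind x₀ T) := by
  classical
  obtain ⟨a⟩ := Cardinal.eq.1 h1
  obtain ⟨b⟩ := Cardinal.eq.1 h2
  let h : Perm Ω := Equiv.subtypeCongr (p := fun x => x ∈ S) (q := fun x => x ∈ T) a b
  refine hm.2.2 h (ind x₀ T) (ind x₀ S) (fun g => ?_)
  by_cases hx : g x₀ ∈ S
  · have h3 : h (g x₀) = (a ⟨g x₀, hx⟩ : Ω) := by simp [h, Equiv.subtypeCongr, hx]
    have h4 : (h * g) x₀ ∈ T := by
      rw [Perm.mul_apply, h3]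
      exact (a ⟨g x₀, hx⟩).2
    rw [ind_mem hx, ind_mem h4]
  · have h3 : h (g x₀) = (b ⟨g x₀, hx⟩ : Ω) := by simp [h, Equiv.subtypeCongr, hx]
    have h4 : (h * g) x₀ ∉ T := by
      rw [Perm.mul_apply, h3]
      exact (b ⟨g x₀, hx⟩).2
    rw [ind_notMem hx, ind_notMem h4]

theorem not_amenable (hi : ℵ₀ ≤ #Ω) : ¬ IsAmenable (Perm Ω) := by
  rintro ⟨m, hm⟩
  have hne : Nonempty Ω := by
    rw [← Cardinal.mk_ne_zero_iff]
    intro h0
    rw [h0] at hi
    exact absurd hi (not_le.2 Cardinal.aleph0_pos)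
  obtain ⟨x₀⟩ := hne
  obtain ⟨e⟩ : Nonempty (Ω ≃ Fin 3 × Ω) := fin_equiv hi 3 (by norm_num)
  let A : Fin 3 → Set Ω := fun i => {x | (e x).1 = i}
  have hA : ∀ (i : Fin 3) (S : Set Ω), A i ⊆ S → #S = #Ω := by
    intro i S hS
    refine le_antisymm (Cardinal.mk_set_le _) ?_
    refine Cardinal.mk_le_of_injective (f := fun x => (⟨e.symm (i, x), hS ?_⟩ : S)) ?_
    · change (e (e.symm (i, x))).1 = i
      rw [Equiv.apply_symm_apply]
    · intro x y hxy
      exact (Prod.mk.inj (e.symm.injective (congrArg Subtype.val hxy))).2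
  have hsub : ∀ i j : Fin 3, i ≠ j → A i ⊆ (A j)ᶜ := by
    intro i j hij x hx hx'
    exact hij (hx.symm.trans hx')
  have h01 : m (ind x₀ (A 0)) = m (ind x₀ (A 1)) :=
    mean_eq hm x₀ _ _ ((hA 0 _ subset_rfl).trans (hA 1 _ subset_rfl).symm)
      ((hA 1 _ (hsub 1 0 (by decide))).trans (hA 0 _ (hsub 0 1 (by decide))).symm)
  have h12 : m (ind x₀ (A 1)) = m (ind x₀ (A 2)) :=
    mean_eq hm x₀ _ _ ((hA 1 _ subset_rfl).trans (hA 2 _ subset_rfl).symm)
      ((hA 2 _ (hsub 2 1 (by decide))).trans (hA 0 _ (hsub 0 2 (by decide))).symm)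
  have h012 : m (ind x₀ (A 0 ∪ A 1)) = m (ind x₀ (A 2)) := by
    refine mean_eq hm x₀ _ _ ((hA 0 _ Set.subset_union_left).trans (hA 2 _ subset_rfl).symm)
      ((hA 2 _ ?_).trans (hA 0 _ (hsub 0 2 (by decide))).symm)
    intro x hx hx'
    rcases hx' with hx' | hx'
    · exact hsub 2 0 (by decide) hx hx'
    · exact hsub 2 1 (by decide) hx hx'
  have hd01 : Disjoint (A 0) (A 1) := Set.disjoint_left.2 fun x hx => hsub 0 1 (by decide) hx
  have hd012 : Disjoint (A 0 ∪ A 1) (A 2) := by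
    rw [Set.disjoint_union_left]
    exact ⟨Set.disjoint_left.2 fun x hx => hsub 0 2 (by decide) hx,
      Set.disjoint_left.2 fun x hx => hsub 1 2 (by decide) hx⟩
  have htot : m (ind x₀ ((A 0 ∪ A 1) ∪ A 2)) = 1 := by
    refine hm.2.1 _ fun g => ?_
    refine ind_mem ?_
    have : ∀ i : Fin 3, i = 0 ∨ i = 1 ∨ i = 2 := by decide
    rcases this (e (g x₀)).1 with h | h | h
    · exact Or.inl (Or.inl h)
    · exact Or.inl (Or.inr h)
    · exact Or.inr h
  rw [ind_union x₀ hd012, map_add] at htot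
  rw [ind_union x₀ hd01, map_add] at h012 htot
  linarith

end NonAmenability

end Pool.Agent.Y919.REC
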