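import Pool.Agent.Y919.REC.Base

/-!
# Non-amenable groups with a prescribed subgroup and a prescribed amenable quotient in which
measurable recurrence implies topological recurrence
-/

set_option autoImplicit false

namespace Pool.Agent.Y919.REC

open MeasureTheory Set Function Cardinal
open scoped CompactlySupported BoundedContinuousFunction

universe u v w

/-- a positive normalized functional on the continuous functions is an integral -/
theorem exists_measure {X : Type v} [MetricSpace X] [CompactSpace X] [MeasurableSpace X]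
    [BorelSpace X] (Λ : C(X, ℝ) →ₗ[ℝ] ℝ) (hpos : ∀ f : C(X, ℝ), (∀ x, 0 ≤ f x) → 0 ≤ Λ f)
    (h1 : Λ 1 = 1) :
    ∃ μ : Measure X, IsProbabilityMeasure μ ∧ ∀ f : C(X, ℝ), ∫ x, f x ∂μ = Λ f := by
  let Λ' : C_c(X, ℝ) →ₚ[ℝ] ℝ :=
    { toFun := fun g => Λ g.toContinuousMap
      map_add' := fun g g' => by
        have : (g + g').toContinuousMap = g.toContinuousMap + g'.toContinuousMap := rfl
        rw [this, map_add]
      map_smul' := fun c g => by
        have : (c • g).toContinuousMap = c • g.toContinuousMap := rfl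
        rw [this, map_smul]; rfl
      monotone' := fun g g' hgg' => by
        have h2 : 0 ≤ Λ (g'.toContinuousMap - g.toContinuousMap) := by
          apply hpos
          intro x
          have := hgg' x
          rw [ContinuousMap.sub_apply]
          exact sub_nonneg.2 this
        rw [map_sub] at h2
        exact sub_nonneg.1 h2 }
  have hint : ∀ f : C(X, ℝ), ∫ x, f x ∂(RealRMK.rieszMeasure Λ') = Λ f := by
    intro f
    let f' : C_c(X, ℝ) :=
      { toFun := f
        hasCompactSupport' := HasCompactSupport.of_compactSpace _ }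
    exact RealRMK.integral_rieszMeasure Λ' f'
  refine ⟨RealRMK.rieszMeasure Λ', ⟨?_⟩, hint⟩
  have h3 := hint 1
  rw [h1] at h3
  simp only [ContinuousMap.one_apply, integral_const, smul_eq_mul, mul_one] at h3
  rw [measureReal_def, ENNReal.toReal_eq_one_iff] at h3
  exact h3

/-- a quotient of an amenable group is amenable -/
theorem amenable_of_surj {G Q : Type u} [Group G] [Group Q] (p : G →* Q) (hG : IsAmenable G) :
    Function.Surjective p → IsAmenable Q := by
  intro hp
  obtain ⟨m, hm1, hm2, hm3⟩ := hG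
  let c : bddFun Q →ₗ[ℝ] bddFun G :=
    { toFun := fun f => ⟨fun g => f.1 (p g), by
        obtain ⟨C, hC⟩ := f.2
        exact ⟨C, fun g => hC (p g)⟩⟩
      map_add' := fun _ _ => rfl
      map_smul' := fun _ _ => rfl }
  refine ⟨m.comp c, fun f hf => hm1 _ fun g => hf (p g), fun f hf => hm2 _ fun g => hf (p g), ?_⟩
  intro h f f' hff'
  obtain ⟨h', rfl⟩ := hp h
  refine hm3 h' (c f) (c f') fun g => ?_
  change f'.1 (p g) = f.1 (p (h' * g))
  rw [map_mul]
  exact hff' (p g)

/-- the universe of the probability spaces does not matter -/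
theorem rec_small {G : Type u} [Group G] {R : Set G} (hR : MeasurableRecurrence.{u, w} G R)
    (X : Type v) [Small.{w} X] [MeasurableSpace X] (μ : Measure X) [IsProbabilityMeasure μ]
    [MulAction G X] (hmp : ∀ g : G, MeasurePreserving (fun x : X => g • x) μ μ) (A : Set X)
    (hA : MeasurableSet A) (hpos : 0 < μ A) :
    ∃ g ∈ R, g ≠ 1 ∧ 0 < μ (A ∩ {x | g • x ∈ A}) := by
  let e : X ≃ Shrink.{w} X := equivShrink X
  let _ : MeasurableSpace (Shrink.{w} X) := MeasurableSpace.comap e.symm inferInstance
  let _ : MulAction G (Shrink.{w} X) := e.symm.mulAction G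
  have hes : Measurable e.symm := comap_measurable _
  have he : Measurable e := by
    intro S hS
    obtain ⟨T, hT, rfl⟩ := hS
    rw [← Set.preimage_comp, Equiv.symm_comp_self]
    exact hT
  have hmap : Measure.map e.symm (Measure.map e μ) = μ := by
    rw [Measure.map_map hes he, Equiv.symm_comp_self, Measure.map_id]
  have hprob : IsProbabilityMeasure (μ.map e) := Measure.isProbabilityMeasure_map he.aemeasurable
  have hmp' : ∀ g : G, MeasurePreserving (fun y : Shrink.{w} X => g • y) (μ.map e) (μ.map e) := by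
    intro g
    have h1 : MeasurePreserving e.symm (μ.map e) μ := ⟨hes, hmap⟩
    have h2 : MeasurePreserving e μ (μ.map e) := ⟨he, rfl⟩
    exact h2.comp ((hmp g).comp h1)
  have hpos' : 0 < (μ.map e) (e.symm ⁻¹' A) := by
    rw [Measure.map_apply he (hes hA), ← Set.preimage_comp, Equiv.symm_comp_self]
    exact hpos
  obtain ⟨g, hg, hg1, h⟩ := hR (Shrink.{w} X) (μ.map e) hmp' (e.symm ⁻¹' A) (hes hA) hpos'
  refine ⟨g, hg, hg1, ?_⟩
  have hset : e.symm ⁻¹' A ∩ {y | g • y ∈ e.symm ⁻¹' A} = e.symm ⁻¹' (A ∩ {x | g • x ∈ A}) := by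
    ext y
    simp only [Set.mem_inter_iff, Set.mem_preimage, Set.mem_ofPred_eq]
    have : e.symm (g • y) = g • e.symm y := by
      change e.symm (e (g • e.symm y)) = _
      rw [Equiv.symm_apply_apply]
    rw [this]
  have hAm : MeasurableSet (A ∩ {x | g • x ∈ A}) := hA.inter ((hmp g).measurable hA)
  rw [hset, Measure.map_apply he (hes hAm), ← Set.preimage_comp, Equiv.symm_comp_self] at h
  exact h

/-- compact metric spaces are small -/
theorem small_of_compact (X : Type v) [MetricSpace X] [CompactSpace X] : Small.{w} X := by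
  rcases isEmpty_or_nonempty X with hX | hX
  · infer_instance
  let D := TopologicalSpace.denseSeq X
  have hD : DenseRange D := TopologicalSpace.denseRange_denseSeq X
  have hinj : Function.Injective fun (x : X) (n : ℕ) => dist x (D n) := by
    intro x y hxy
    have h1 : (fun z => dist x z) = fun z => dist y z :=
      hD.equalizer (continuous_const.dist continuous_id) (continuous_const.dist continuous_id) hxy
    have h2 := congrFun h1 y
    simp only [dist_self] at h2
    exact dist_eq_zero.1 h2
  exact small_of_injective hinj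

/-- Measurable recurrence implies topological recurrence for the actions through an amenable
quotient. -/
theorem topRec {G A : Type u} [Group G] [Group A] (hA : IsAmenable A) (π : G →* A)
    (hπ : Function.Surjective π) (R : Set G) (hR : MeasurableRecurrence.{u, w} G R)
    (X : Type v) [MetricSpace X] [CompactSpace X] [MulAction G X]
    (hc : ∀ g : G, Continuous fun x : X => g • x)
    (hk : ∀ g : G, π g = 1 → ∀ x : X, g • x = x)
    (hmin : ∀ x : X, Dense (MulAction.orbit G x)) (U : Set X) (hU : IsOpen U)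
    (hne : U.Nonempty) : ∃ g ∈ R, g ≠ 1 ∧ (U ∩ {x | g • x ∈ U}).Nonempty := by
  obtain ⟨x0, hx0⟩ := hne
  obtain ⟨m, hm1, hm2, hm3⟩ := hA
  choose s hs using hπ
  have hact : ∀ g g' : G, π g = π g' → ∀ x : X, g • x = g' • x := by
    intro g g' h x
    have h1 := hk (g'⁻¹ * g) (by rw [map_mul, map_inv, h, inv_mul_cancel]) x
    rw [mul_smul, inv_smul_eq_iff] at h1
    exact h1
  borelize X
  let F : C(X, ℝ) →ₗ[ℝ] bddFun A :=
    { toFun := fun f => ⟨fun a => f (s a • x0), ‖f‖, fun a => f.norm_coe_le_norm _⟩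
      map_add' := fun _ _ => rfl
      map_smul' := fun _ _ => rfl }
  obtain ⟨μ, hμ, hint⟩ := exists_measure (m.comp F) (fun f hf => hm1 _ fun a => hf _)
    (hm2 _ fun a => rfl)
  have hinv : ∀ (g : G) (f : C(X, ℝ)), ∫ x, f (g • x) ∂μ = ∫ x, f x ∂μ := by
    intro g f
    have h1 := hint (f.comp ⟨fun x => g • x, hc g⟩)
    have h2 := hint f
    change ∫ x, f (g • x) ∂μ = _ at h1
    rw [h1, h2]
    refine hm3 (π g) (F f) (F (f.comp ⟨fun x => g • x, hc g⟩)) fun a => ?_
    change f (g • s a • x0) = f (s (π g * a) • x0)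
    congr 1
    rw [← mul_smul]
    exact hact _ _ (by rw [map_mul, hs, hs]) x0
  have hmp : ∀ g : G, MeasurePreserving (fun x : X => g • x) μ μ := by
    intro g
    refine ⟨(hc g).measurable, ?_⟩
    have : IsProbabilityMeasure (μ.map fun x : X => g • x) :=
      Measure.isProbabilityMeasure_map (hc g).aemeasurable
    apply ext_of_forall_integral_eq_of_IsFiniteMeasure
    intro f
    rw [integral_map (hc g).aemeasurable f.continuous.aestronglyMeasurable]
    exact hinv g f.toContinuousMap
  have hpos : 0 < μ U := by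
    rw [pos_iff_ne_zero]
    intro h0
    have h2 : ∀ g : G, μ {x : X | g • x ∈ U} = 0 := by
      intro g
      have := (hmp g).measure_preimage hU.measurableSet.nullMeasurableSet
      rw [h0] at this
      exact this
    obtain ⟨t, ht⟩ := isCompact_univ.elim_finite_subcover (fun g : G => {x : X | g • x ∈ U})
      (fun g => hU.preimage (hc g)) (by
        intro x _
        obtain ⟨y, hy, ⟨g, rfl⟩⟩ := (hmin x).inter_open_nonempty U hU ⟨x0, hx0⟩
        exact Set.mem_iUnion.2 ⟨g, hy⟩)
    have h3 : μ Set.univ = 0 := by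
      refine measure_mono_null ht ?_
      refine le_antisymm ((measure_biUnion_finset_le t _).trans ?_) (zero_le)
      simp [h2]
    rw [measure_univ] at h3
    exact one_ne_zero h3
  have hsm : Small.{w} X := small_of_compact X
  obtain ⟨g, hg, hg1, h4⟩ := rec_small hR X μ hmp U hU.measurableSet hpos
  exact ⟨g, hg, hg1, nonempty_of_measure_ne_zero h4.ne'⟩

/-- direct products of amenable groups and large symmetric groups -/
theorem main (Ω A : Type) [Group A] (hi : ℵ₀ ≤ #Ω) (hc2 : 𝔠 < 2 ^ #Ω) (hA : IsAmenable A) :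
    ¬ IsAmenable (A × Equiv.Perm Ω) ∧
    (∀ (X : Type v) [MetricSpace X] [CompactSpace X] [MulAction (A × Equiv.Perm Ω) X],
      (∀ g : A × Equiv.Perm Ω, Continuous fun x : X => g • x) →
      ∀ g : A × Equiv.Perm Ω, g.1 = 1 → ∀ x : X, g • x = x) ∧
    ∀ R : Set (A × Equiv.Perm Ω), MeasurableRecurrence.{0, w} (A × Equiv.Perm Ω) R →
      TopologicalRecurrence.{0, v} (A × Equiv.Perm Ω) R := by
  have htriv : ∀ (X : Type v) [MetricSpace X] [CompactSpace X] [MulAction (A × Equiv.Perm Ω) X],
      (∀ g : A × Equiv.Perm Ω, Continuous fun x : X => g • x) →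
      ∀ g : A × Equiv.Perm Ω, g.1 = 1 → ∀ x : X, g • x = x := by
    intro X _ _ _ hc g hg x
    have h := action_trivial hi hc2
      ((MulAction.toPermHom (A × Equiv.Perm Ω) X).comp (MonoidHom.inr A (Equiv.Perm Ω)))
      (fun q => hc _) g.2
    have h2 : (MonoidHom.inr A (Equiv.Perm Ω) g.2) • x = x :=
      congrArg (fun p : Equiv.Perm X => p x) h
    have h3 : MonoidHom.inr A (Equiv.Perm Ω) g.2 = g := Prod.ext hg.symm rfl
    rwa [h3] at h2
  refine ⟨?_, htriv, ?_⟩
  · intro hG
    exact not_amenable hi (amenable_of_surj (MonoidHom.snd A (Equiv.Perm Ω)) hG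
      Prod.snd_surjective)
  · intro R hR X _ _ _ hc hmin U hU hne
    exact topRec hA (MonoidHom.fst A (Equiv.Perm Ω)) Prod.fst_surjective R hR X hc
      (htriv X hc) hmin U hU hne

/-- large symmetric groups -/
theorem main0 (Ω : Type) (hi : ℵ₀ ≤ #Ω) (hc2 : 𝔠 < 2 ^ #Ω) :
    ¬ IsAmenable (Equiv.Perm Ω) ∧
    (∀ (X : Type v) [MetricSpace X] [CompactSpace X] [MulAction (Equiv.Perm Ω) X],
      (∀ g : Equiv.Perm Ω, Continuous fun x : X => g • x) →
      ∀ (g : Equiv.Perm Ω) (x : X), g • x = x) ∧
    ∀ R : Set (Equiv.Perm Ω), MeasurableRecurrence.{0, w} (Equiv.Perm Ω) R →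
      TopologicalRecurrence.{0, v} (Equiv.Perm Ω) R := by
  have htriv : ∀ (X : Type v) [MetricSpace X] [CompactSpace X] [MulAction (Equiv.Perm Ω) X],
      (∀ g : Equiv.Perm Ω, Continuous fun x : X => g • x) →
      ∀ (g : Equiv.Perm Ω) (x : X), g • x = x := by
    intro X _ _ _ hc g x
    have h := action_trivial hi hc2 (MulAction.toPermHom (Equiv.Perm Ω) X) (fun q => hc q) g
    exact congrArg (fun p : Equiv.Perm X => p x) h
  refine ⟨not_amenable hi, htriv, ?_⟩
  intro R hR X _ _ _ hc hmin U hU hne
  let _ : MulAction (Equiv.Perm Ω) PUnit.{w + 1} :=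
    { smul := fun _ x => x, one_smul := fun _ => rfl, mul_smul := fun _ _ _ => rfl }
  obtain ⟨g, hg, hg1, -⟩ := hR PUnit.{w + 1} (Measure.dirac PUnit.unit)
    (fun g => by
      have : (fun x : PUnit.{w + 1} => g • x) = id := by
        funext x
        rfl
      rw [this]
      exact MeasurePreserving.id _) Set.univ MeasurableSet.univ (by simp)
  obtain ⟨x, hx⟩ := hne
  refine ⟨g, hg, hg1, x, hx, ?_⟩
  change g • x ∈ U
  rw [htriv X hc g x]
  exact hx

theorem card_ge (H : Type) [Nonempty H] : 𝔠 ≤ #(H × ℝ) := by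
  obtain ⟨h⟩ := ‹Nonempty H›
  rw [← Cardinal.mk_real]
  exact Cardinal.mk_le_of_injective (f := fun x : ℝ => (h, x)) fun x y hxy =>
    (Prod.mk.inj hxy).2

/-- left multiplication -/
noncomputable def emb (H A : Type) [Group H] [Group A] : H →* A × Equiv.Perm (H × ℝ) :=
  (MonoidHom.inr A (Equiv.Perm (H × ℝ))).comp
    { toFun := fun h => Equiv.prodCongr (Equiv.mulLeft h) (Equiv.refl ℝ)
      map_one' := by
        ext1 ⟨x, y⟩
        simp
      map_mul' := fun a b => by
        ext1 ⟨x, y⟩
        simp [mul_assoc] }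

theorem emb_injective (H A : Type) [Group H] [Group A] : Function.Injective (emb H A) := by
  intro a b h
  have h1 := congrArg (fun z : A × Equiv.Perm (H × ℝ) => (z.2 (1, 0)).1) h
  simpa [emb] using h1

end Pool.Agent.Y919.REC
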